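import Pool.Agent.V5helper98.CR.MocA

set_option autoImplicit false

/-!
Project CR (statements in `Pool/Agent/Q236/CR/Stm.lean`), job MOC: from the smoothed sum to the sum.
-/

open Complex Filter Topology Set MeasureTheory Metric
open scoped Real

namespace Pool.Agent.V5helper98.CR

open Pool.Agent.Q236.CR (S_LZF S_MOC nt)

/-- the coefficients -/
noncomputable def aa {q : ℕ} (χ : DirichletCharacter ℂ q) (τ : ℝ) (n : ℕ) : ℂ :=
  ((ArithmeticFunction.moebius n : ℤ) : ℂ) * (χ (n : ZMod q) * nt τ n)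

lemma term_aa {q : ℕ} (χ : DirichletCharacter ℂ q) (τ : ℝ) {n : ℕ} (hn : n ≠ 0) :
    LSeries.term (Mc χ) ⟨0, τ⟩ n = aa χ τ n := by
  rw [LSeries.term_of_ne_zero hn]
  unfold aa nt
  rw [Mc_apply]
  have h1 : (⟨0, τ⟩ : ℂ) = τ * Complex.I := by apply Complex.ext <;> simp
  rw [h1, div_eq_mul_inv, ← Complex.cpow_neg, neg_mul]
  ring

lemma aa_norm {q : ℕ} (χ : DirichletCharacter ℂ q) (τ : ℝ) {n : ℕ} (hn : n ≠ 0) :
    ‖aa χ τ n‖ ≤ 1 := by
  unfold aa nt
  have h1 : ‖(n : ℂ) ^ (-(τ : ℂ) * Complex.I)‖ = 1 := by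
    rw [Complex.norm_natCast_cpow_of_pos (Nat.pos_of_ne_zero hn)]
    simp
  have h2 := Mc_norm χ n
  rw [Mc_apply, norm_mul] at h2
  rw [norm_mul, norm_mul, h1, mul_one, mul_comm]
  exact h2

lemma RS_fin {q : ℕ} (χ : DirichletCharacter ℂ q) (τ : ℝ) {N : ℕ} (hN : 1 ≤ N) {v : ℝ}
    (hv : v ≤ Real.log N + 1) :
    RS χ τ v = ∑ n ∈ Finset.Icc 1 (3 * N), aa χ τ n * ((max (v - Real.log n) 0 : ℝ) : ℂ) := by
  unfold RS
  rw [tsum_eq_sum (s := Finset.Icc 1 (3 * N))]
  · refine Finset.sum_congr rfl fun n hn => ?_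
    rw [term_aa χ τ (by have := (Finset.mem_Icc.1 hn).1; omega)]
  · intro n hn
    rcases Nat.eq_zero_or_pos n with rfl | h0
    · simp
    · have h3 : 3 * N < n := by
        by_contra h
        exact hn (Finset.mem_Icc.2 ⟨h0, not_lt.1 h⟩)
      have h4 : Real.log N + 1 ≤ Real.log n := by
        have hN0 : (0 : ℝ) < N := by exact_mod_cast hN
        have h5 : Real.exp 1 * N ≤ n := by
          have h6 : (3 * N : ℝ) < n := by exact_mod_cast h3
          nlinarith [Real.exp_one_lt_d9]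
        have h7 := Real.log_le_log (by positivity) h5
        rw [Real.log_mul (Real.exp_pos _).ne' hN0.ne', Real.log_exp] at h7
        linarith
      rw [max_eq_right (by linarith)]
      simp

theorem unsmooth {q : ℕ} (χ : DirichletCharacter ℂ q) (τ : ℝ) {N : ℕ} (hN : 1 ≤ N) {h : ℝ}
    (h0 : 0 < h) (h1 : h ≤ 1) :
    ‖∑ n ∈ Finset.Icc 1 N, aa χ τ n‖ ≤
      (‖RS χ τ (Real.log N + h)‖ + ‖RS χ τ (Real.log N)‖) / h + 2 * h * N := by
  set L := Real.log N with hL
  have hN0 : (0 : ℝ) < N := by exact_mod_cast hN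
  set φ : ℕ → ℝ := fun n => max (L + h - Real.log n) 0 - max (L - Real.log n) 0 with hφ
  have hφ1 : ∀ n : ℕ, 1 ≤ n → n ≤ N → φ n = h := by
    intro n hn1 hn
    have hn0 : (0 : ℝ) < n := by exact_mod_cast hn1
    have h2 : Real.log n ≤ L := Real.log_le_log hn0 (by exact_mod_cast hn)
    simp only [hφ]
    rw [max_eq_left (by linarith), max_eq_left (by linarith)]
    ring
  set F := ⌊(N : ℝ) * Real.exp h⌋₊ with hF
  have hφ2 : ∀ n : ℕ, N < n → |φ n| ≤ if n ≤ F then h else 0 := by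
    intro n hn
    have hn0 : (0 : ℝ) < n := by exact_mod_cast (by omega : 0 < n)
    have h2 : L ≤ Real.log n := Real.log_le_log hN0 (by exact_mod_cast hn.le)
    simp only [hφ]
    rw [max_eq_right (by linarith : L - Real.log n ≤ 0), sub_zero, abs_of_nonneg (le_max_right _ _)]
    split_ifs with h3
    · exact max_le (by linarith) h0.le
    · apply max_le _ le_rfl
      have h4 : (N : ℝ) * Real.exp h < n := (Nat.floor_lt (by positivity)).1 (not_le.1 h3)
      have h5 := Real.log_le_log (by positivity) h4.le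
      rw [Real.log_mul hN0.ne' (Real.exp_pos _).ne', Real.log_exp] at h5
      linarith
  have hdiff : RS χ τ (L + h) - RS χ τ L =
      ∑ n ∈ Finset.Icc 1 (3 * N), aa χ τ n * ((φ n : ℝ) : ℂ) := by
    rw [RS_fin χ τ hN (by linarith), RS_fin χ τ hN (by linarith), ← Finset.sum_sub_distrib]
    refine Finset.sum_congr rfl fun n _ => ?_
    simp only [hφ]
    push_cast
    ring
  rw [← Finset.sum_filter_add_sum_filter_not (Finset.Icc 1 (3 * N)) (fun n => n ≤ N)] at hdiff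
  have hfil : (Finset.Icc 1 (3 * N)).filter (fun n => n ≤ N) = Finset.Icc 1 N := by
    ext n
    simp only [Finset.mem_filter, Finset.mem_Icc]
    omega
  rw [hfil] at hdiff
  have hmain : ∑ n ∈ Finset.Icc 1 N, aa χ τ n * ((φ n : ℝ) : ℂ) =
      (h : ℂ) * ∑ n ∈ Finset.Icc 1 N, aa χ τ n := by
    rw [Finset.mul_sum]
    refine Finset.sum_congr rfl fun n hn => ?_
    rw [Finset.mem_Icc] at hn
    rw [hφ1 n hn.1 hn.2, mul_comm]
  rw [hmain] at hdiff
  set rem := ∑ n ∈ (Finset.Icc 1 (3 * N)).filter (fun n => ¬ n ≤ N), aa χ τ n * ((φ n : ℝ) : ℂ)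
    with hrem
  have hNF : N ≤ F := by
    apply Nat.le_floor
    have := Real.add_one_le_exp h
    nlinarith
  have hremb : ‖rem‖ ≤ 2 * h * N * h := by
    calc ‖rem‖ ≤ ∑ n ∈ (Finset.Icc 1 (3 * N)).filter (fun n => ¬ n ≤ N),
          if n ≤ F then h else 0 := by
          refine norm_sum_le_of_le _ fun n hn => ?_
          rw [Finset.mem_filter, Finset.mem_Icc] at hn
          rw [norm_mul, Complex.norm_real, Real.norm_eq_abs]
          have h2 := aa_norm χ τ (by omega : n ≠ 0)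
          have h3 := hφ2 n (not_le.1 hn.2)
          calc ‖aa χ τ n‖ * |φ n| ≤ 1 * |φ n| := mul_le_mul_of_nonneg_right h2 (abs_nonneg _)
            _ ≤ _ := by rw [one_mul]; exact h3
      _ = (((Finset.Icc 1 (3 * N)).filter (fun n => ¬ n ≤ N)).filter (fun n => n ≤ F)).card *
          h := by
          rw [← Finset.sum_filter, Finset.sum_const, nsmul_eq_mul]
      _ ≤ ((Finset.Ioc N F).card : ℝ) * h := by
          apply mul_le_mul_of_nonneg_right _ h0.le
          norm_cast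
          apply Finset.card_le_card
          intro n hn
          simp only [Finset.mem_filter, Finset.mem_Icc, Finset.mem_Ioc] at hn ⊢
          omega
      _ ≤ (2 * h * N) * h := by
          apply mul_le_mul_of_nonneg_right _ h0.le
          rw [Nat.card_Ioc, Nat.cast_sub hNF]
          have h2 : (F : ℝ) ≤ N * Real.exp h := Nat.floor_le (by positivity)
          have h3 : Real.exp h - 1 ≤ 2 * h := by
            have h4 := Real.abs_exp_sub_one_le (x := h) (by rw [abs_of_pos h0]; exact h1)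
            rw [abs_of_pos h0] at h4
            exact (le_abs_self _).trans h4
          nlinarith
  have hS : (h : ℂ) * ∑ n ∈ Finset.Icc 1 N, aa χ τ n = RS χ τ (L + h) - RS χ τ L - rem := by
    rw [hdiff]
    ring
  have hS2 : h * ‖∑ n ∈ Finset.Icc 1 N, aa χ τ n‖ ≤
      ‖RS χ τ (L + h)‖ + ‖RS χ τ L‖ + 2 * h * N * h := by
    have h2 : ‖(h : ℂ) * ∑ n ∈ Finset.Icc 1 N, aa χ τ n‖ =
        h * ‖∑ n ∈ Finset.Icc 1 N, aa χ τ n‖ := by
      rw [norm_mul, Complex.norm_real, Real.norm_of_nonneg h0.le]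
    rw [← h2, hS]
    exact (norm_sub_le _ _).trans (add_le_add (norm_sub_le _ _) hremb)
  have hfin : ‖∑ n ∈ Finset.Icc 1 N, aa χ τ n‖ ≤
      (‖RS χ τ (L + h)‖ + ‖RS χ τ L‖ + 2 * h * N * h) / h := by
    rw [le_div_iff₀ h0, mul_comm]
    exact hS2
  refine hfin.trans (le_of_eq ?_)
  field_simp

theorem asym (δ K0 D : ℝ) (hδ : 0 < δ) (hK0 : 1 ≤ K0) (hD : 1 ≤ D) (K C₀ : ℕ)
    (hC : 2 * K + K0 + 1 ≤ (C₀ : ℝ)) : ∃ L1 : ℝ, 5 ≤ L1 ∧
    ∀ L : ℝ, L1 ≤ L → L ^ (2 * K) * ((D * L) ^ K0 * Real.exp (-((D * L) ^ (δ - 1) / 2 * L)) +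
      (D * L) ^ K0 * (4 / (L ^ C₀) ^ 2) + (L + 1) * (2 / L ^ C₀)) ≤ 1 := by
  have hD0 : 0 < D := by linarith
  obtain ⟨L1, hL1, h1⟩ := Pool.Agent.Y25.VK.asym δ K0 D hδ hD (K + 1)
  refine ⟨max L1 (5 + 4 * D ^ K0), ?_, fun L hL => ?_⟩
  · have : 0 ≤ D ^ K0 := by positivity
    exact le_trans (by linarith) (le_max_right _ _)
  have hLL1 := (le_max_left _ _).trans hL
  have hLL2 : 5 + 4 * D ^ K0 ≤ L := (le_max_right _ _).trans hL
  have hDK : 0 < D ^ K0 := by positivity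
  have hL0 : 0 < L := by linarith
  have hL1' : 1 ≤ L := by linarith
  have hL5 : 5 ≤ L := by linarith
  have h2 := h1 L hLL1
  have hC2 : 2 * K + 2 ≤ C₀ := by
    have : ((2 * K + 2 : ℕ) : ℝ) ≤ C₀ := by push_cast; linarith
    exact_mod_cast this
  -- first term
  have i1 : L ^ (2 * K) * ((D * L) ^ K0 * Real.exp (-((D * L) ^ (δ - 1) / 2 * L))) ≤ 1 / L := by
    rw [le_div_iff₀ hL0]
    refine le_trans ?_ h2
    have e1 : L ^ (2 * (K + 1)) = L ^ (2 * K) * L ^ 2 := by rw [mul_add, pow_add, mul_one]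
    rw [e1]
    set P := (D * L) ^ K0 * Real.exp (-((D * L) ^ (δ - 1) / 2 * L)) with hP
    have hP0 : 0 ≤ P := by positivity
    have hQ0 : 0 ≤ (D * L) ^ K0 * Real.exp (-(2 * L)) + (L + 1) * Real.exp (-L) := by positivity
    have hLK : 0 < L ^ (2 * K) := by positivity
    calc L ^ (2 * K) * P * L ≤ L ^ (2 * K) * P * L ^ 2 := by
          apply mul_le_mul_of_nonneg_left _ (by positivity)
          nlinarith
      _ = L ^ (2 * K) * L ^ 2 * P := by ring
      _ ≤ _ := by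
          apply mul_le_mul_of_nonneg_left _ (by positivity)
          linarith
  have i2 : L ^ (2 * K) * ((D * L) ^ K0 * (4 / (L ^ C₀) ^ 2)) ≤ 4 * D ^ K0 / L := by
    rw [Real.mul_rpow hD0.le hL0.le]
    have e1 : L ^ (2 * K) * L ^ K0 * L ≤ L ^ C₀ := by
      rw [← Real.rpow_natCast L (2 * K), ← Real.rpow_add hL0, ← Real.rpow_add_one hL0.ne',
        ← Real.rpow_natCast L C₀]
      apply Real.rpow_le_rpow_of_exponent_le hL1'
      push_cast
      linarith
    have e2 : 1 ≤ L ^ C₀ := one_le_pow₀ hL1'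
    have e3 : 0 < L ^ C₀ := by positivity
    rw [le_div_iff₀ hL0]
    calc L ^ (2 * K) * (D ^ K0 * L ^ K0 * (4 / (L ^ C₀) ^ 2)) * L =
        4 * D ^ K0 * ((L ^ (2 * K) * L ^ K0 * L) / (L ^ C₀) ^ 2) := by ring
      _ ≤ 4 * D ^ K0 * 1 := by
          apply mul_le_mul_of_nonneg_left _ (by positivity)
          rw [div_le_one (by positivity)]
          nlinarith
      _ = _ := mul_one _
  have i3 : L ^ (2 * K) * ((L + 1) * (2 / L ^ C₀)) ≤ 4 / L := by
    have e1 : L ^ (2 * K) * L ^ 2 ≤ L ^ C₀ := by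
      rw [← pow_add]
      exact pow_le_pow_right₀ hL1' hC2
    have e3 : 0 < L ^ C₀ := by positivity
    rw [le_div_iff₀ hL0]
    calc L ^ (2 * K) * ((L + 1) * (2 / L ^ C₀)) * L ≤
        L ^ (2 * K) * ((2 * L) * (2 / L ^ C₀)) * L := by
          gcongr
          linarith
      _ = 4 * ((L ^ (2 * K) * L ^ 2) / L ^ C₀) := by ring
      _ ≤ 4 * 1 := by
          apply mul_le_mul_of_nonneg_left _ (by positivity)
          rw [div_le_one e3]
          exact e1
      _ = 4 := mul_one _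
  have i4 : 1 / L + 4 * D ^ K0 / L + 4 / L ≤ 1 := by
    rw [← add_div, ← add_div, div_le_one hL0]
    linarith
  calc _ = L ^ (2 * K) * ((D * L) ^ K0 * Real.exp (-((D * L) ^ (δ - 1) / 2 * L))) +
        L ^ (2 * K) * ((D * L) ^ K0 * (4 / (L ^ C₀) ^ 2)) +
        L ^ (2 * K) * ((L + 1) * (2 / L ^ C₀)) := by ring
    _ ≤ 1 / L + 4 * D ^ K0 / L + 4 / L := add_le_add (add_le_add i1 i2) i3
    _ ≤ 1 := i4

/-- Job MOC. -/
theorem moc (hlzf : S_LZF) : S_MOC := by
  intro A B K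
  obtain ⟨δ, K0, T₀, hδ, hδ1, hK0, hT₀, hb⟩ := RS_bound hlzf B
  set D := Real.log (4 + T₀) + ((A + 1 : ℕ) : ℝ) with hD
  have hlog4 : 0 ≤ Real.log (4 + T₀) := Real.log_nonneg (by linarith)
  have hA1 : (1 : ℝ) ≤ ((A + 1 : ℕ) : ℝ) := by
    push_cast
    linarith [Nat.cast_nonneg (α := ℝ) A]
  have hD1 : 1 ≤ D := by linarith
  set C₀ : ℕ := ⌈2 * (K : ℝ) + K0 + 1⌉₊ with hC₀
  have hCle : 2 * (K : ℝ) + K0 + 1 ≤ (C₀ : ℝ) := Nat.le_ceil _
  have hC1 : 1 ≤ C₀ := by
    have h1 : (1 : ℝ) ≤ C₀ := by linarith [Nat.cast_nonneg (α := ℝ) K]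
    exact_mod_cast h1
  obtain ⟨L1, hL1, hasym⟩ := asym δ K0 D hδ hK0 hD1 K C₀ hCle
  refine ⟨C₀, 290 + L1 ^ K, fun N q _ χ τ hN hq hτ1 hτ => ?_⟩
  have hN0 : (0 : ℝ) < N := by exact_mod_cast (by omega : 0 < N)
  have hN1 : (1 : ℝ) ≤ N := by exact_mod_cast (by omega : 1 ≤ N)
  set L := Real.log N with hL
  have hL0 : 0 < L := Real.log_pos (by exact_mod_cast (by omega : 1 < N))
  change ‖∑ n ∈ Finset.Icc 1 N, aa χ τ n‖ ≤ (290 + L1 ^ K) * N / L ^ K
  have hexpL : Real.exp L = N := Real.exp_log hN0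
  rcases le_or_gt L1 L with hLL | hLL
  · have hLge1 : 5 ≤ L := hL1.trans hLL
    have hLC : L ≤ L ^ C₀ := le_self_pow₀ (by linarith) (by omega)
    have hLCpos : 0 < L ^ C₀ := by positivity
    have hRS : ∀ v, L ≤ v → v ≤ L + 1 → ‖RS χ τ v‖ ≤ 144 * N / L ^ (2 * K) := by
      intro v hv1 hv2
      have hev : Real.exp v ≤ 3 * N := by
        calc Real.exp v ≤ Real.exp (L + 1) := Real.exp_le_exp.2 hv2
          _ = N * Real.exp 1 := by rw [Real.exp_add, hexpL]
          _ ≤ 3 * N := by nlinarith [Real.exp_one_lt_d9]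
      have hNA : (N : ℝ) ^ A ≤ (N : ℝ) ^ (A + 1) := pow_le_pow_right₀ hN1 (by omega)
      have hNA1 : (N : ℝ) ≤ (N : ℝ) ^ (A + 1) := by
        calc (N : ℝ) = (N : ℝ) ^ 1 := (pow_one _).symm
          _ ≤ _ := pow_le_pow_right₀ hN1 (by omega)
      have hNpos : 0 < (N : ℝ) ^ (A + 1) := by positivity
      have hNge1 : 1 ≤ (N : ℝ) ^ (A + 1) := hN1.trans hNA1
      have hT1 : T₀ ≤ (4 + T₀) * (N : ℝ) ^ (A + 1) := by nlinarith
      have hT2 : |τ| + |τ| / 2 ≤ (4 + T₀) * (N : ℝ) ^ (A + 1) := by nlinarith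
      have hlogT : Real.log ((4 + T₀) * (N : ℝ) ^ (A + 1)) =
          Real.log (4 + T₀) + ((A + 1 : ℕ) : ℝ) * L := by
        rw [Real.log_mul (by linarith) hNpos.ne', Real.log_pow]
      set ll := Real.log (4 + T₀) + ((A + 1 : ℕ) : ℝ) * L with hll
      have hll1 : L ≤ ll := by nlinarith
      have h1 := hb q inferInstance χ τ v (|τ| / 2) ((4 + T₀) * (N : ℝ) ^ (A + 1)) (by linarith)
        (by linarith) hT1 (by
          rw [hlogT]
          exact hq.trans (pow_le_pow_left₀ hL0.le hll1 B)) (by linarith) hT2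
      rw [hlogT] at h1
      have hllD : ll ≤ D * L := by
        rw [hll, hD, add_mul]
        nlinarith
      have k1 : ll ^ K0 ≤ (D * L) ^ K0 := Real.rpow_le_rpow (by linarith) hllD (by linarith)
      have k2 : (D * L) ^ (δ - 1) ≤ ll ^ (δ - 1) :=
        Real.rpow_le_rpow_of_nonpos (by linarith) hllD (by linarith)
      have hDLpos : 0 < D * L := by positivity
      have k3 : Real.exp (-(ll ^ (δ - 1) / 2 * v)) ≤
          Real.exp (-((D * L) ^ (δ - 1) / 2 * L)) := by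
        apply Real.exp_le_exp.2
        apply neg_le_neg
        have : 0 < (D * L) ^ (δ - 1) := Real.rpow_pos_of_pos hDLpos _
        exact mul_le_mul (by linarith) hv1 hL0.le (by linarith)
      have k4 : ll ^ K0 / (|τ| / 2) ^ 2 ≤ (D * L) ^ K0 * (4 / (L ^ C₀) ^ 2) := by
        rw [div_eq_mul_inv]
        apply mul_le_mul k1 _ (by positivity) (Real.rpow_nonneg hDLpos.le _)
        have e1 : (L ^ C₀ / 2) ^ 2 ≤ (|τ| / 2) ^ 2 :=
          pow_le_pow_left₀ (by positivity) (by linarith) 2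
        calc ((|τ| / 2) ^ 2)⁻¹ ≤ ((L ^ C₀ / 2) ^ 2)⁻¹ := inv_anti₀ (by positivity) e1
          _ = 4 / (L ^ C₀) ^ 2 := by
              rw [div_pow, inv_div]
              norm_num
      have k5 : v / (|τ| / 2) ≤ (L + 1) * (2 / L ^ C₀) := by
        rw [div_eq_mul_inv]
        apply mul_le_mul hv2 _ (by positivity) (by linarith)
        rw [inv_div]
        exact div_le_div_of_nonneg_left (by norm_num) hLCpos hτ1
      have k6 : ll ^ K0 * Real.exp (-(ll ^ (δ - 1) / 2 * v)) ≤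
          (D * L) ^ K0 * Real.exp (-((D * L) ^ (δ - 1) / 2 * L)) :=
        mul_le_mul k1 k3 (Real.exp_pos _).le (Real.rpow_nonneg hDLpos.le _)
      have h2 := hasym L hLL
      set Ψ := (D * L) ^ K0 * Real.exp (-((D * L) ^ (δ - 1) / 2 * L)) +
        (D * L) ^ K0 * (4 / (L ^ C₀) ^ 2) + (L + 1) * (2 / L ^ C₀) with hΨ
      have hΨ0 : 0 ≤ Ψ := by positivity
      have hLK : 0 < L ^ (2 * K) := by positivity
      rw [le_div_iff₀ hLK]
      have h3 : ‖RS χ τ v‖ ≤ 48 * (3 * N) * Ψ := by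
        refine h1.trans ?_
        have hll0 : 0 < ll := by linarith
        have hv0 : 0 < v := by linarith
        have hp1 : 0 ≤ ll ^ K0 := Real.rpow_nonneg hll0.le _
        apply mul_le_mul _ _ (by positivity) (by positivity)
        · linarith
        · rw [hΨ]
          linarith
      calc ‖RS χ τ v‖ * L ^ (2 * K) ≤ 48 * (3 * N) * Ψ * L ^ (2 * K) :=
            mul_le_mul_of_nonneg_right h3 hLK.le
        _ = 144 * N * (L ^ (2 * K) * Ψ) := by ring
        _ ≤ 144 * N * 1 := mul_le_mul_of_nonneg_left h2 (by positivity)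
        _ = _ := mul_one _
    have hLK : 0 < L ^ K := by positivity
    have hh0 : 0 < 1 / L ^ K := by positivity
    have hh1 : 1 / L ^ K ≤ 1 := by
      rw [div_le_one hLK]
      exact one_le_pow₀ (by linarith)
    have h1 := unsmooth χ τ (by omega : 1 ≤ N) hh0 hh1
    have h2 := hRS (L + 1 / L ^ K) (by linarith) (by linarith)
    have h3 := hRS L le_rfl (by linarith)
    have h4 : (‖RS χ τ (L + 1 / L ^ K)‖ + ‖RS χ τ L‖) / (1 / L ^ K) ≤ 288 * N / L ^ K := by
      rw [div_le_iff₀ hh0]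
      have h5 : 288 * (N : ℝ) / L ^ K * (1 / L ^ K) = 144 * N / L ^ (2 * K) +
          144 * N / L ^ (2 * K) := by
        rw [two_mul, pow_add]
        field_simp
        ring
      rw [h5]
      exact add_le_add h2 h3
    have h6 : 2 * (1 / L ^ K) * (N : ℝ) = 2 * N / L ^ K := by ring
    have h7 : (288 * N / L ^ K + 2 * N / L ^ K : ℝ) = 290 * N / L ^ K := by ring
    have h8 : 290 * (N : ℝ) / L ^ K ≤ (290 + L1 ^ K) * N / L ^ K := by
      apply div_le_div_of_nonneg_right _ hLK.le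
      have : 0 ≤ L1 ^ K * (N : ℝ) := by positivity
      linarith
    linarith
  · have h1 : ‖∑ n ∈ Finset.Icc 1 N, aa χ τ n‖ ≤ N := by
      calc ‖∑ n ∈ Finset.Icc 1 N, aa χ τ n‖ ≤ ∑ n ∈ Finset.Icc 1 N, (1 : ℝ) := by
            refine norm_sum_le_of_le _ fun n hn => aa_norm χ τ ?_
            have := (Finset.mem_Icc.1 hn).1
            omega
        _ = N := by simp
    refine h1.trans ?_
    have hLK : 0 < L ^ K := by positivity
    rw [le_div_iff₀ hLK]
    have h2 : L ^ K ≤ L1 ^ K := pow_le_pow_left₀ hL0.le hLL.le K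
    nlinarith

end Pool.Agent.V5helper98.CR

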